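import Pool.Agent.P8H68.AS.Final

/-!
# Analytic semigroups in `L¹(ℝ)` are unbounded on every half-disc
-/

namespace Pool.Agent.Results.MP_8f84d8_an.UnboundedHalfDisc

open MeasureTheory Convolution

/-- **Negative answer to Q1.** Let `(a^t)`, `Re t > 0`, be an analytic semigroup in the convolution
algebra `L¹(ℝ)`: a holomorphic map from the open right half-plane to `L¹(ℝ)`, not identically zero,
with `a^{s+t} = a^s * a^t`. Then for every `δ > 0` the norms `‖a^t‖`, `0 < |t| ≤ δ`, `Re t > 0`,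
are unbounded; for `δ = 1` this is the half-disc of the question. -/
theorem result (a : ℂ → Lp ℂ 1 (volume : Measure ℝ))
    (hol : DifferentiableOn ℂ a {t : ℂ | 0 < t.re})
    (hmul : ∀ s t : ℂ, 0 < s.re → 0 < t.re →
      ((a (s + t) : ℝ → ℂ) =ᵐ[volume]
        (a s : ℝ → ℂ) ⋆[ContinuousLinearMap.mul ℂ ℂ, volume] (a t : ℝ → ℂ)))
    (hne : ∃ t : ℂ, 0 < t.re ∧ a t ≠ 0) :
    ∀ δ : ℝ, 0 < δ → ∀ C : ℝ, ∃ t : ℂ, 0 < t.re ∧ ‖t‖ ≤ δ ∧ C < ‖a t‖ := by
  intro δ hδ C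
  by_contra hcon
  push Not at hcon
  refine Pool.Agent.P8H68.AS.unbounded (a := a) ⟨hol, hmul, hne⟩ (b := δ / 2) (C := C)
    (by positivity) (fun t ht ht2 => hcon t ht ?_)
  linarith

end Pool.Agent.Results.MP_8f84d8_an.UnboundedHalfDisc
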